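import Pool.Agent.Helper66.PD.Stmts

/-! # Row LOC -/

set_option autoImplicit false

namespace Pool.Agent.Helper66.PD

/-- row LOC -/
theorem st_LOC : ST_LOC := by
  intro P _ _ w h m l r H A E C hR hH ℓ x y hxy hb
  classical
  let _ : LocallyFiniteOrder P := Fintype.toLocallyFiniteOrder
  have hx0 : l x < m := lt_of_le_of_lt (hR.lr x) (hR.rm x)
  obtain ⟨m1, m2, m3⟩ := hH.mem ℓ (l x) hx0
  set a := A ℓ (l x) with ha
  set e := E ℓ (l x) with he
  have key : ∀ z, Relation.ReflTransGen (fun u v : P => u ⋖ v) x z → z ≤ y →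
      (a < l z ∧ r z < e) ∧ C ℓ (l x) + H x ≤ C ℓ (l z) + H z ∧
        C ℓ (l z) + H x ≤ C ℓ (l x) + H z := by
    intro z hz
    induction hz with
    | refl =>
      intro _
      have h1 := hb x le_rfl hxy
      have h2 := hR.lr x
      refine ⟨⟨?_, ?_⟩, le_rfl, le_rfl⟩
      · by_contra h3
        exact h1.1 ⟨not_lt.1 h3, m1.trans h2⟩
      · by_contra h3
        exact h1.2 ⟨m2, not_lt.1 h3⟩
    | @tail z z' hz hcov ih =>
      intro hy
      have hlt : z < z' := hcov.lt
      obtain ⟨⟨g1, g2⟩, c1, c2⟩ := ih (hlt.le.trans hy)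
      have hxz : x ≤ z := le_iff_reflTransGen_covBy.2 hz
      have h1 := hb z' (hxz.trans hlt.le) hy
      obtain ⟨a1, a2⟩ := hR.adj z z' hcov
      have b1 := hR.lr z
      have b2 := hR.lr z'
      have g3 : r z' < e := by
        by_contra h3
        exact h1.2 ⟨(a2.trans g2.le), not_lt.1 h3⟩
      have g4 : a < l z' := by
        by_contra h3
        exact h1.1 ⟨not_lt.1 h3, g1.le.trans a1⟩
      -- the position q
      have q1 : max (l z) (l z') ≤ r z := max_le b1 a2
      have q2 : max (l z) (l z') ≤ r z' := max_le a1 b2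
      have hqm : max (l z) (l z') < m := lt_of_le_of_lt q1 (hR.rm z)
      have n1 : A ℓ (l z) = a := hH.node ℓ (l x) (l z) hx0 g1.le (b1.trans g2.le)
      have n2 : A ℓ (l z') = a := hH.node ℓ (l x) (l z') hx0 g4.le (b2.trans g3.le)
      have n3 : A ℓ (max (l z) (l z')) = a := hH.node ℓ (l x) _ hx0
        (g1.le.trans (le_max_left _ _)) (q1.trans g2.le)
      have u1 := hH.mono ℓ (l z) _ (le_max_left (l z) (l z')) hqm (n1.trans n3.symm)
      have u2 := hH.mono ℓ (l z') _ (le_max_right (l z) (l z')) hqm (n2.trans n3.symm)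
      have v1 := hH.step ℓ z (l z) _ (le_max_left (l z) (l z')) hqm (n1.trans n3.symm)
        (fun hc => by
          have := hc.1
          rw [n1] at this
          omega) le_rfl q1
      have v2 := hH.step ℓ z' (l z') _ (le_max_right (l z) (l z')) hqm (n2.trans n3.symm)
        (fun hc => by
          have := hc.1
          rw [n2] at this
          omega) le_rfl q2
      have hh := hR.mono z z' hlt
      refine ⟨⟨g4, g3⟩, ?_, ?_⟩
      · omega
      · omega
  obtain ⟨⟨g1, g2⟩, c1, c2⟩ := key y (le_iff_reflTransGen_covBy.1 hxy) le_rfl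
  exact ⟨(hH.node ℓ (l x) (l y) hx0 g1.le ((hR.lr y).trans g2.le)).symm, c1, c2⟩

end Pool.Agent.Helper66.PD
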